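import Pool.Agent.Y507.LS.Stm

set_option autoImplicit false

/-! # The layer of a function with box-like superlevel sets -/

open MeasureTheory Set Filter
open scoped ENNReal Topology

namespace Pool.Agent.Y188.LS

open Pool.Agent.Y507.LS

lemma layer_eq {lo : ℝ} (hlo : 0 < lo) (u : ℝ) : layer lo u = max lo (min u (2 * lo)) - lo := by
  unfold layer
  rcases le_total u lo with h | h
  · rw [min_eq_left (by linarith), min_eq_left h, max_eq_left h]
    ring
  · rw [min_eq_right h, max_eq_right (le_min h (by linarith))]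

/-- the levels between two values -/
def XX (lo u v : ℝ) : Set ℝ := {r | (lo ≤ r ∧ r < 2 * lo) ∧ ((v ≤ r ∧ r < u) ∨ (u ≤ r ∧ r < v))}

lemma XX_symm (lo u v : ℝ) : XX lo u v = XX lo v u := by
  ext r
  simp only [XX, mem_ofPred_eq]
  tauto

lemma layer_le {lo : ℝ} (hlo : 0 < lo) (u v : ℝ) :
    ‖layer lo u - layer lo v‖ₑ ≤ volume (XX lo u v) := by
  have key : ∀ u v : ℝ, v ≤ u → ‖layer lo u - layer lo v‖ₑ ≤ volume (XX lo u v) := by
    intro u v hvu
    have h1 : layer lo u - layer lo v = max lo (min u (2 * lo)) - max lo (min v (2 * lo)) := by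
      rw [layer_eq hlo, layer_eq hlo]
      ring
    have h2 : max lo (min v (2 * lo)) ≤ max lo (min u (2 * lo)) :=
      max_le_max le_rfl (min_le_min hvu le_rfl)
    rw [h1, Real.enorm_eq_ofReal_abs, abs_of_nonneg (sub_nonneg.mpr h2), ← Real.volume_Ico]
    apply measure_mono
    rintro r ⟨h3, h4⟩
    have h5 : lo ≤ r := (le_max_left _ _).trans h3
    have h6 : min v (2 * lo) ≤ r := (le_max_right _ _).trans h3
    have h7 : r < min u (2 * lo) := by
      rcases lt_max_iff.mp h4 with h | h
      · exact absurd h5 (not_le.mpr h)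
      · exact h
    have h8 : r < 2 * lo := h7.trans_le (min_le_right _ _)
    have h9 : v ≤ r := by
      rcases min_le_iff.mp h6 with h | h
      · exact h
      · exact absurd h8 (not_lt.mpr h)
    exact ⟨⟨h5, h8⟩, Or.inl ⟨h9, h7.trans_le (min_le_left _ _)⟩⟩
  rcases le_total v u with h | h
  · exact key u v h
  · have h1 := key v u h
    rw [XX_symm]
    rwa [← enorm_neg, neg_sub] at h1

lemma vol_small (S : Set ℝ) (h : ℝ) (hS : ∀ t ∈ S, ∀ t' ∈ S, t ≤ t' → t' - t ≤ |h|) :
    volume S ≤ ENNReal.ofReal |h| := by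
  refine (Real.volume_le_diam S).trans ?_
  apply Metric.ediam_le
  intro t ht t' ht'
  rw [edist_dist, Real.dist_eq]
  apply ENNReal.ofReal_le_ofReal
  rcases le_total t t' with h1 | h1
  · rw [abs_sub_comm, abs_of_nonneg (sub_nonneg.mpr h1)]
    exact hS t ht t' ht' h1
  · rw [abs_of_nonneg (sub_nonneg.mpr h1)]
    exact hS t' ht' t ht h1

lemma vol_A (T : Set ℝ) (hT : OrdConnected T) (h : ℝ) :
    volume {t | t + h ∈ T ∧ t ∉ T} ≤ ENNReal.ofReal |h| := by
  apply vol_small
  rintro t ⟨h1, h2⟩ t' ⟨h3, h4⟩ htt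
  by_contra hcon
  push Not at hcon
  rcases le_total 0 h with hh | hh
  · rw [abs_of_nonneg hh] at hcon
    exact h4 (hT.out h1 h3 ⟨by linarith, by linarith⟩)
  · rw [abs_of_nonpos hh] at hcon
    exact h2 (hT.out h1 h3 ⟨by linarith, by linarith⟩)

lemma vol_B (T : Set ℝ) (hT : OrdConnected T) (h : ℝ) :
    volume {t | t ∈ T ∧ t + h ∉ T} ≤ ENNReal.ofReal |h| := by
  apply vol_small
  rintro t ⟨h1, h2⟩ t' ⟨h3, h4⟩ htt
  by_contra hcon
  push Not at hcon
  rcases le_total 0 h with hh | hh
  · rw [abs_of_nonneg hh] at hcon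
    exact h2 (hT.out h1 h3 ⟨by linarith, by linarith⟩)
  · rw [abs_of_nonpos hh] at hcon
    exact h4 (hT.out h1 h3 ⟨by linarith, by linarith⟩)

/-- the one-dimensional bound -/
lemma one_dim {lo : ℝ} (hlo : 0 < lo) (g : ℝ → ℝ) (hg : Measurable g)
    (hT : ∀ r, lo ≤ r → OrdConnected {t | r < g t}) (h : ℝ) :
    ∫⁻ t, ‖layer lo (g (t + h)) - layer lo (g t)‖ₑ ≤ ENNReal.ofReal (2 * |h| * lo) := by
  set S : Set (ℝ × ℝ) := {x | x.2 ∈ XX lo (g (x.1 + h)) (g x.1)} with hS
  have hm1 : Measurable fun x : ℝ × ℝ => g (x.1 + h) :=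
    hg.comp (measurable_fst.add_const h)
  have hm2 : Measurable fun x : ℝ × ℝ => g x.1 := hg.comp measurable_fst
  have hSm : MeasurableSet S := by
    have e : S = ({x : ℝ × ℝ | lo ≤ x.2} ∩ {x | x.2 < 2 * lo}) ∩
        (({x : ℝ × ℝ | g x.1 ≤ x.2} ∩ {x | x.2 < g (x.1 + h)}) ∪
          ({x : ℝ × ℝ | g (x.1 + h) ≤ x.2} ∩ {x | x.2 < g x.1})) := by
      ext x
      rfl
    rw [e]
    refine ((measurableSet_le measurable_const measurable_snd).inter
      (measurableSet_lt measurable_snd measurable_const)).inter ?_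
    exact ((measurableSet_le hm2 measurable_snd).inter (measurableSet_lt measurable_snd hm1)).union
      ((measurableSet_le hm1 measurable_snd).inter (measurableSet_lt measurable_snd hm2))
  have h1 : ∫⁻ t, ‖layer lo (g (t + h)) - layer lo (g t)‖ₑ ≤
      ((volume : Measure ℝ).prod (volume : Measure ℝ)) S := by
    rw [Measure.prod_apply hSm]
    exact lintegral_mono fun t => layer_le hlo _ _
  refine h1.trans ?_
  rw [Measure.prod_apply_symm hSm]
  have h2 : ∀ r : ℝ, volume ((fun t : ℝ => (t, r)) ⁻¹' S) ≤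
      (Ico lo (2 * lo)).indicator (fun _ => ENNReal.ofReal (2 * |h|)) r := by
    intro r
    by_cases hr : r ∈ Ico lo (2 * lo)
    · rw [indicator_of_mem hr]
      have h3 : (fun t : ℝ => (t, r)) ⁻¹' S ⊆
          {t | t + h ∈ {t | r < g t} ∧ t ∉ {t | r < g t}} ∪
          {t | t ∈ {t | r < g t} ∧ t + h ∉ {t | r < g t}} := by
        rintro t ⟨-, h4 | h4⟩
        · exact Or.inl ⟨h4.2, not_lt.mpr h4.1⟩
        · exact Or.inr ⟨h4.2, not_lt.mpr h4.1⟩
      refine (measure_mono h3).trans ((measure_union_le _ _).trans ?_)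
      refine (add_le_add (vol_A _ (hT r hr.1) h) (vol_B _ (hT r hr.1) h)).trans ?_
      rw [← ENNReal.ofReal_add (abs_nonneg _) (abs_nonneg _)]
      apply ENNReal.ofReal_le_ofReal
      linarith
    · rw [indicator_of_notMem hr]
      have h3 : (fun t : ℝ => (t, r)) ⁻¹' S = ∅ := by
        rw [eq_empty_iff_forall_notMem]
        rintro t ⟨h4, -⟩
        exact hr h4
      rw [h3, measure_empty]
  refine (lintegral_mono h2).trans ?_
  rw [lintegral_indicator measurableSet_Ico, setLIntegral_const, Real.volume_Ico,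
    ← ENNReal.ofReal_mul (by positivity)]
  apply ENNReal.ofReal_le_ofReal
  apply le_of_eq
  ring

lemma insert_add {k : ℕ} (i : Fin (k + 1)) (t h : ℝ) (z : Fin k → ℝ) :
    (i.insertNth t z : Fin (k + 1) → ℝ) + Pi.single i h = i.insertNth (t + h) z := by
  funext j
  refine Fin.succAboveCases i ?_ (fun j' => ?_) j
  · simp
  · simp

lemma update_insert {k : ℕ} (i : Fin (k + 1)) (t t' : ℝ) (z : Fin k → ℝ) :
    Function.update (i.insertNth t z : Fin (k + 1) → ℝ) i t' = i.insertNth t' z := by
  funext j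
  refine Fin.succAboveCases i ?_ (fun j' => ?_) j
  · simp
  · simp

theorem thm : S_SHIFT := by
  intro m F c l lo hF hlo hl hbox hT i h
  obtain ⟨k, rfl⟩ : ∃ k, m = k + 1 := ⟨m - 1, by have := i.pos; omega⟩
  set e := MeasurableEquiv.piFinSuccAbove (fun _ : Fin (k + 1) => ℝ) i with he
  have hmp : MeasurePreserving e.symm volume volume :=
    (volume_preserving_piFinSuccAbove (fun _ : Fin (k + 1) => ℝ) i).symm
  have hes : ∀ (t : ℝ) (z : Fin k → ℝ), e.symm (t, z) = i.insertNth t z := fun t z => rfl
  set Φ : (Fin (k + 1) → ℝ) → ℝ≥0∞ := fun y =>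
    ‖layer lo (F (y + Pi.single i h)) - layer lo (F y)‖ₑ with hΦ
  have hlm : Measurable (layer lo) := by
    unfold layer
    exact (measurable_id.min measurable_const).sub (measurable_id.min measurable_const)
  have hΦm : Measurable Φ := by
    refine Measurable.enorm ?_
    exact (hlm.comp (hF.comp (measurable_id.add_const _))).sub (hlm.comp hF)
  have h1 : ∫⁻ y, Φ y = ∫⁻ z : Fin k → ℝ, ∫⁻ t : ℝ, Φ (i.insertNth t z) := by
    rw [← hmp.lintegral_comp hΦm]
    have h2 : (volume : Measure (ℝ × (Fin k → ℝ))) = (volume : Measure ℝ).prod volume := rfl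
    rw [h2, lintegral_prod_symm (fun a : ℝ × (Fin k → ℝ) => Φ (e.symm a))
      (hΦm.comp e.symm.measurable).aemeasurable]
    rfl
  rw [h1]
  set BX : Set (Fin k → ℝ) := Icc (fun j => c (i.succAbove j))
    (fun j => c (i.succAbove j) + l (i.succAbove j)) with hBX
  have h2 : ∀ z : Fin k → ℝ, ∫⁻ t : ℝ, Φ (i.insertNth t z) ≤
      BX.indicator (fun _ => ENNReal.ofReal (2 * |h| * lo)) z := by
    intro z
    by_cases hz : z ∈ BX
    · rw [indicator_of_mem hz]
      have h3 := one_dim hlo (fun t => F (i.insertNth t z)) (by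
        refine hF.comp ?_
        have : (fun t : ℝ => (i.insertNth t z : Fin (k + 1) → ℝ)) =
            fun t => e.symm (t, z) := rfl
        rw [this]
        exact e.symm.measurable.comp (measurable_id.prodMk measurable_const)) (by
        intro r hr
        have h4 := hT r hr (i.insertNth 0 z) i
        simp only [update_insert] at h4
        exact h4) h
      refine le_trans (le_of_eq ?_) h3
      refine lintegral_congr fun t => ?_
      simp only [hΦ, insert_add]
    · rw [indicator_of_notMem hz]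
      have h3 : ∀ t, layer lo (F (i.insertNth t z)) = 0 := by
        intro t
        have h4 : F (i.insertNth t z) ≤ lo := by
          by_contra hcon
          push Not at hcon
          apply hz
          have h5 := hbox _ hcon
          constructor
          · intro j
            have := (h5 (i.succAbove j)).1
            simpa using this
          · intro j
            have := (h5 (i.succAbove j)).2
            simpa using this
        rw [layer_eq hlo, min_eq_left (by linarith), max_eq_left h4, sub_self]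
      have h4 : ∀ t : ℝ, Φ (i.insertNth t z) = 0 := by
        intro t
        simp only [hΦ, insert_add]
        rw [h3, h3, sub_self, enorm_zero]
      simp only [h4, lintegral_zero, le_refl]
  refine (lintegral_mono h2).trans ?_
  rw [lintegral_indicator measurableSet_Icc, setLIntegral_const, Real.volume_Icc_pi]
  have h3 : ∀ j : Fin k, ENNReal.ofReal (c (i.succAbove j) + l (i.succAbove j) -
      c (i.succAbove j)) = ENNReal.ofReal (l (i.succAbove j)) := by
    intro j
    congr 1
    ring
  simp only [h3]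
  rw [← ENNReal.ofReal_prod_of_nonneg (fun j _ => (hl _).le), ← ENNReal.ofReal_mul (by positivity)]
  apply ENNReal.ofReal_le_ofReal
  rw [Fin.prod_univ_succAbove l i]
  have h4 : 0 ≤ ∏ j : Fin k, l (i.succAbove j) := Finset.prod_nonneg fun j _ => (hl _).le
  have h5 : (l i * ∏ j : Fin k, l (i.succAbove j)) * (|h| / l i) =
      (∏ j : Fin k, l (i.succAbove j)) * |h| := by
    have := (hl i).ne'
    field_simp
  rw [h5]
  have h6 : 0 ≤ lo * ((∏ j : Fin k, l (i.succAbove j)) * |h|) := by positivity
  nlinarith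

end Pool.Agent.Y188.LS
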